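import Pool.Agent.H65.CF.T7

/-!
# Complete family (MP_347b49_nt), board cfh_modules: HLR
-/

set_option autoImplicit false

open MeasureTheory Set Filter NumberField
open scoped Real nonZeroDivisors

namespace Pool.Agent.H4.CFH

open Pool.Agent.H31.CN Pool.Agent.H65.AD Pool.Agent.H65.CF

theorem pf_HLR (hHLQ : T_HLQ) : T_HLR := by
  obtain ⟨C, hC, h⟩ := hHLQ
  intro ε hε
  have h1 : Tendsto (fun x : ℝ => Real.log x ^ 2 / x) atTop (nhds 0) :=
    (Real.isLittleO_pow_log_id_atTop (n := 2)).tendsto_div_nhds_zero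
  have h2 : Tendsto (fun R : ℕ => Real.log (R : ℝ) ^ 2 / (R : ℝ)) atTop (nhds 0) :=
    h1.comp tendsto_natCast_atTop_atTop
  obtain ⟨R₁, hR₁⟩ := eventually_atTop.1 (h2.eventually_lt_const (div_pos hε hC))
  refine ⟨max R₁ 2, fun R hR => ?_⟩
  obtain ⟨Y₀, hY⟩ := h R (le_trans (le_max_right _ _) hR)
  refine ⟨max Y₀ 0, fun Y hY' K _ _ hK => ?_⟩
  refine (hY Y (le_trans (le_max_left _ _) hY') K hK).trans ?_
  refine mul_le_mul_of_nonneg_right ?_ (le_trans (le_max_right _ _) hY')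
  have h3 := hR₁ R (le_trans (le_max_left _ _) hR)
  have h4 : C * (Real.log (R : ℝ) ^ 2 / (R : ℝ)) ≤ C * (ε / C) :=
    mul_le_mul_of_nonneg_left h3.le hC.le
  calc C * Real.log (R : ℝ) ^ 2 / (R : ℝ) = C * (Real.log (R : ℝ) ^ 2 / (R : ℝ)) := by ring
    _ ≤ C * (ε / C) := h4
    _ = ε := by field_simp

end Pool.Agent.H4.CFH
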