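import Pool.Agent.H65.CF.T7

/-!
# Complete family (MP_347b49_nt), board cfh_modules: LMB
-/

set_option autoImplicit false

open MeasureTheory Set Filter NumberField
open scoped Real nonZeroDivisors

namespace Pool.Agent.H4.CFH

open Pool.Agent.H31.CN Pool.Agent.H65.AD Pool.Agent.H65.CF

theorem summable_exp_succ {a : ℝ} (ha : 0 < a) :
    Summable (fun m : ℕ => Real.exp (-(a * ((m : ℝ) + 1)))) := by
  have h1 : Summable (fun m : ℕ => Real.exp (-a) * Real.exp (-a) ^ m) :=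
    (summable_geometric_of_lt_one (Real.exp_pos _).le
      (Real.exp_lt_one_iff.2 (by linarith))).mul_left _
  refine h1.congr fun m => ?_
  rw [← Real.exp_nat_mul, ← Real.exp_add]
  congr 1
  ring

theorem pf_LMB (hCHM : T_CHM) (hPDS : T_PDS) (hGQB : T_GQB) : T_LMB := by
  intro D T hT
  obtain ⟨-, hchm, -, -, -⟩ := hCHM
  obtain ⟨-, -, C, hC, hgq⟩ := hGQB
  have hpi := Real.pi_pos
  -- first sum
  have s1 : Summable (fun m : ℕ => chm (m + 1) D / ((m : ℝ) + 1) * gq (((m : ℝ) + 1) / T)) := by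
    refine Summable.of_norm_bounded
      (g := fun m : ℕ => C * Real.exp (-(1 / T * ((m : ℝ) + 1))))
      ((summable_exp_succ (one_div_pos.2 hT)).mul_left C) fun m => ?_
    have hm : (0 : ℝ) < (m : ℝ) + 1 := by positivity
    have h1 := (hgq (((m : ℝ) + 1) / T) (by positivity)).1
    rw [Real.norm_eq_abs, abs_mul, abs_div, abs_of_pos hm]
    have h2 : |chm (m + 1) D| / ((m : ℝ) + 1) ≤ 1 := by
      rw [div_le_one hm]
      have := hchm (m + 1) D
      have h3 : (0 : ℝ) ≤ (m : ℝ) := Nat.cast_nonneg m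
      linarith
    have h4 : Real.exp (-(((m : ℝ) + 1) / T)) = Real.exp (-(1 / T * ((m : ℝ) + 1))) := by
      congr 2
      ring
    rw [h4] at h1
    calc |chm (m + 1) D| / ((m : ℝ) + 1) * |gq (((m : ℝ) + 1) / T)|
        ≤ 1 * (C * Real.exp (-(1 / T * ((m : ℝ) + 1)))) :=
          mul_le_mul h2 h1 (abs_nonneg _) zero_le_one
      _ = _ := one_mul _
  -- the double sum
  set F : ℕ → ℕ → ℝ := fun m k => chm m D * Real.exp (-(2 * π * (m : ℝ) * (k : ℝ) / T)) with hF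
  have s2 : Summable (fun x : ℕ × ℕ => F (x.1 + 1) (x.2 + 1)) := by
    have e1 := summable_exp_succ (a := π / T) (by positivity)
    have e2 : Summable (fun x : ℕ × ℕ => Real.exp (-(π / T * ((x.1 : ℝ) + 1))) *
        Real.exp (-(π / T * ((x.2 : ℝ) + 1)))) :=
      e1.mul_of_nonneg e1 (fun _ => (Real.exp_pos _).le) (fun _ => (Real.exp_pos _).le)
    refine Summable.of_norm_bounded e2 fun x => ?_
    obtain ⟨m, k⟩ := x
    simp only [hF]
    rw [Real.norm_eq_abs, abs_mul, Real.abs_exp, ← Real.exp_add]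
    have h1 : Real.exp (-(2 * π * ((m + 1 : ℕ) : ℝ) * ((k + 1 : ℕ) : ℝ) / T)) ≤
        Real.exp (-(π / T * ((m : ℝ) + 1)) + -(π / T * ((k : ℝ) + 1))) := by
      apply Real.exp_le_exp.2
      have h2 : (0 : ℝ) ≤ (m : ℝ) := Nat.cast_nonneg m
      have h3 : (0 : ℝ) ≤ (k : ℝ) := Nat.cast_nonneg k
      have h4 : -(2 * π * ((m + 1 : ℕ) : ℝ) * ((k + 1 : ℕ) : ℝ) / T) =
          -(π / T * (2 * ((m : ℝ) + 1) * ((k : ℝ) + 1))) := by
        push_cast
        ring
      rw [h4, ← neg_add, neg_le_neg_iff, ← mul_add]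
      refine mul_le_mul_of_nonneg_left ?_ (by positivity)
      nlinarith [mul_nonneg h2 h3]
    calc |chm (m + 1) D| * Real.exp (-(2 * π * ((m + 1 : ℕ) : ℝ) * ((k + 1 : ℕ) : ℝ) / T))
        ≤ 1 * Real.exp (-(π / T * ((m : ℝ) + 1)) + -(π / T * ((k : ℝ) + 1))) :=
          mul_le_mul (hchm _ _) h1 (Real.exp_pos _).le zero_le_one
      _ = _ := one_mul _
  obtain ⟨s3, t3⟩ := hPDS F s2
  have hdiv : ∀ n : ℕ, ∑ d ∈ (n + 1).divisors, F d ((n + 1) / d) =
      aD (n + 1) D * Real.exp (-(2 * π * ((n : ℝ) + 1) / T)) := by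
    intro n
    unfold aD
    rw [Finset.sum_mul]
    refine Finset.sum_congr rfl fun d hd => ?_
    have hd1 : d * ((n + 1) / d) = n + 1 := Nat.mul_div_cancel' (Nat.dvd_of_mem_divisors hd)
    have hd2 : (d : ℝ) * (((n + 1) / d : ℕ) : ℝ) = (n : ℝ) + 1 := by
      rw [← Nat.cast_mul, hd1]
      push_cast
      ring
    simp only [hF]
    rw [show 2 * π * (d : ℝ) * (((n + 1) / d : ℕ) : ℝ) =
      2 * π * ((d : ℝ) * (((n + 1) / d : ℕ) : ℝ)) by ring, hd2]
  have s4 : Summable (fun n : ℕ => aD (n + 1) D * Real.exp (-(2 * π * ((n : ℝ) + 1) / T))) :=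
    s3.congr fun n => hdiv n
  refine ⟨s1, s4, ?_⟩
  have t4 : ∑' n : ℕ, aD (n + 1) D * Real.exp (-(2 * π * ((n : ℝ) + 1) / T)) =
      ∑' x : ℕ × ℕ, F (x.1 + 1) (x.2 + 1) := by
    rw [t3]
    exact tsum_congr fun n => (hdiv n).symm
  rw [t4, s2.tsum_prod]
  unfold SG
  rw [← tsum_mul_left]
  refine tsum_congr fun m => ?_
  have hm : (0 : ℝ) < (m : ℝ) + 1 := by positivity
  obtain ⟨x, hx⟩ : ∃ x, x = 2 * π * ((m : ℝ) + 1) / T := ⟨_, rfl⟩
  have hx0 : 0 < x := by rw [hx]; positivity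
  have hq1 : Real.exp (-x) < 1 := Real.exp_lt_one_iff.2 (by linarith)
  have h5 : ∀ k : ℕ, F (m + 1) (k + 1) =
      chm (m + 1) D * Real.exp (-x) * Real.exp (-x) ^ k := by
    intro k
    simp only [hF]
    rw [mul_assoc (chm (m + 1) D), ← Real.exp_nat_mul, ← Real.exp_add]
    congr 2
    rw [hx]
    push_cast
    ring
  have h6 : ∑' k : ℕ, F (m + 1) (k + 1) =
      chm (m + 1) D * Real.exp (-x) * (1 - Real.exp (-x))⁻¹ := by
    rw [← tsum_geometric_of_lt_one (Real.exp_pos _).le hq1, ← tsum_mul_left]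
    exact tsum_congr h5
  have h7 : gq (((m : ℝ) + 1) / T) = x / (Real.exp x - 1) := by
    unfold gq
    rw [hx, show 2 * π * (((m : ℝ) + 1) / T) = 2 * π * ((m : ℝ) + 1) / T by ring]
  have h8 : Real.exp (-x) * (1 - Real.exp (-x))⁻¹ = 1 / (Real.exp x - 1) := by
    have e1 : Real.exp x - 1 ≠ 0 := by
      have := Real.add_one_lt_exp hx0.ne'
      intro h
      linarith
    have e2 : 1 - Real.exp (-x) ≠ 0 := by
      intro h
      linarith
    have e3 : Real.exp (-x) * Real.exp x = 1 := by rw [← Real.exp_add]; simp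
    rw [← div_eq_mul_inv, div_eq_div_iff e2 e1]
    linear_combination e3
  change ∑' k : ℕ, F (m + 1) (k + 1) = _
  rw [h6, h7, mul_assoc, h8]
  have h9 : T / (2 * π) * (x / ((m : ℝ) + 1)) = 1 := by
    rw [hx]
    field_simp
  calc chm (m + 1) D * (1 / (Real.exp x - 1))
      = (T / (2 * π) * (x / ((m : ℝ) + 1))) * (chm (m + 1) D * (1 / (Real.exp x - 1))) := by
        rw [h9, one_mul]
    _ = _ := by ring

end Pool.Agent.H4.CFH
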